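import Pool.Agent.Lib_MP_22d2c8_lc.Reuse

/-!
# A superlinear lower bound for circuits with bounded reuse depth

Khrapchenko's theorem for circuits in which gates may be used more than once: along every path to
the output at most `k` gates outside an exceptional set `Z` that depend on more than `q` inputs
have more than one outgoing wire.
-/

namespace Pool.Agent.Lib_MP_22d2c8_lc.Old.ReuseDepthBound

open Pool.Agent.Lib_MP_22d2c8_lc

theorem result :
    (∀ (n s q k : ℕ) (f : (Fin n → Bool) → Bool) (C : Circuit n s) (Z : Finset (Fin s)),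
      1 ≤ q → C.Computes f → C.ReuseDepthLE Z q k →
      ∀ X : Finset (Fin n → Bool), X.Nonempty →
      ∀ d : ℝ, 0 ≤ d → d * (X.card : ℝ) ≤ (sensPairs f X : ℝ) →
        d ^ (2 ^ (k + 1)) ≤
          ((Z.card : ℝ) + 1) * (18 * ((q : ℝ) ^ 2 * (C.size : ℝ))) ^ (2 ^ (k + 1) - 1)) ∧
    (∀ (n s q k : ℕ) (C : Circuit n s) (Z : Finset (Fin s)),
      1 ≤ q → C.Computes parity → C.ReuseDepthLE Z q k →
        n ^ (2 ^ (k + 1)) ≤ (Z.card + 1) * (18 * (q ^ 2 * C.size)) ^ (2 ^ (k + 1) - 1)) := by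
  have h1 : ∀ (n s q k : ℕ) (f : (Fin n → Bool) → Bool) (C : Circuit n s) (Z : Finset (Fin s)),
      1 ≤ q → C.Computes f → C.ReuseDepthLE Z q k →
      ∀ X : Finset (Fin n → Bool), X.Nonempty →
      ∀ d : ℝ, 0 ≤ d → d * (X.card : ℝ) ≤ (sensPairs f X : ℝ) →
        d ^ (2 ^ (k + 1)) ≤
          ((Z.card : ℝ) + 1) * (18 * ((q : ℝ) ^ 2 * (C.size : ℝ))) ^ (2 ^ (k + 1) - 1) := by
    intro n s q k f C Z hq hf hk X hX d hd0 hd
    have := reuse_bound C f hf Z q k hq hk X hX d hd0 hd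
    simpa [Circuit.size] using this
  refine ⟨h1, ?_⟩
  intro n s q k C Z hq hf hk
  have h2 := h1 n s q k parity C Z hq hf hk Finset.univ Finset.univ_nonempty (n : ℝ)
    (by positivity) (by rw [sensPairs_parity]; push_cast; exact le_rfl)
  exact_mod_cast h2

end Pool.Agent.Lib_MP_22d2c8_lc.Old.ReuseDepthBound
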