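import Pool.Agent.Lib_MP_22d2c8_lc.SharingMain

/-!
# How much a circuit for an explicit function must reuse its gates

If the reused gates of a circuit for the explicit function `selPoly` that lie outside an arbitrary
set `A` of gates and depend on more than `q` inputs have total fan-out at most `(1 - ε) n` then the
circuit has at least `ε ^ 2 n ^ 2 / (128 q (|A| + log₂ n + 2))` vertices.
-/

namespace Pool.Agent.Lib_MP_22d2c8_lc.Old.SharingBudget

open Pool.Agent.Lib_MP_22d2c8_lc

theorem result : ∀ (n s : ℕ) (C : Circuit n s), C.Computes selPoly →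
    ∀ (A : Finset (Fin s)) (q : ℕ), 1 ≤ q →
      (n - C.sharing A q) ^ 2 ≤ 128 * q * (A.card + Nat.log 2 n + 2) * C.size := by
  intro n s C hC A q hq
  exact sharing_budget C hC A q hq

end Pool.Agent.Lib_MP_22d2c8_lc.Old.SharingBudget
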